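import Mathlib
import Pool.Agent.H.MP_47485c_an.B

set_option autoImplicit false

namespace Pool.Agent.Results.MP_47485c_an.No

open Filter Topology MeasureTheory ProbabilityTheory

/-- Khintchin sequence -/
def Khin (l : ℕ → ℕ) : Prop :=
  ∀ f : UnitAddCircle → ℝ, Integrable f → ∀ᵐ x : UnitAddCircle,
    Tendsto (fun N : ℕ => (∑ n ∈ Finset.range N, f (l n • x)) / N) atTop (𝓝 (∫ y, f y))

theorem result {Ω : Type} [MeasurableSpace Ω] (P : Measure Ω) [IsProbabilityMeasure P] (ω : ℕ → Ω → ℕ)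
    (m : ∀ n, Measurable (ω n)) (h : iIndepFun ω P) (p : ℝ) (p0 : 0 < p) (p1 : p < 1)
    (h2 : ∀ n, P.real {a | ω n a = 2} = p) (h3 : ∀ n, P.real {a | ω n a = 3} = 1 - p) :
    ∀ᵐ a ∂P, ¬Khin fun n => ∏ i ∈ Finset.range (n + 1), ω i a :=
  Pool.Agent.H.MP_47485c_an.main m h p0 p1 h2 h3

end Pool.Agent.Results.MP_47485c_an.No
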